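import Pool.Agent.Q301.BM.Sp
import Pool.Agent.H310R3.TopDefs
import Pool.Agent.H310R3.CanM
import Pool.Agent.H635R2.Ext

/-!
# A homogeneous Cantor tree is not weakly Loeb
-/

set_option maxHeartbeats 1000000
set_option linter.all false
set_option synthInstance.maxSize 2000

namespace Pool.Agent.Q301.CT

open FirstOrder FirstOrder.Language
open Pool.Agent.Helper672.ZFA
open Pool.Agent.Helper672.ZFA.H310M
open Pool.Agent.Helper672.Plain (LSet)
open Pool.Agent.Helper672.ZFA.H635 (toL plainN_ordPair plainN_graph plainN_opGraph IsGen NN nn_zf
  CollL coll_of_zf exists_countable_sub exists_reals isModel_of_zermelo nn_zermelo IPerm)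
open Pool.Agent.H635Amen (IsReals ZF)
open Pool.Agent.H310Cards (IsOmega IsFinite IsFun App IsInj IsNat IsProd)
open Pool.Agent.H310Top (IsTopology IsClosed IsCompact IsBase IsCuf IsHausdorff IsWeaklyLoeb)
open Pool.Agent.H310 (FinP finP_iff finP_le finP_lt finP_of_finite exists_BN mem_nat nat_iff appN finite_of_finP
  mem_cp extN exists_code instPEl CanT CanT.int')
open Pool.Agent.Q301.TM
open Pool.Agent.Q301.BM

universe u u₁

section

attribute [local instance] toL instPEl

variable {N : Type u} [LSet.Structure N] [hM : IsModel N] {α : Type u} [ITy N α]
variable {D : INat N × (α × α) → Prop} (h : CanT N D)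

/-- The ball. -/
noncomputable def bl (D : INat N × (α × α) → Prop) (n : INat N) (x : α) : IPow N α :=
  sep N fun y => D (n, (x, y))

include h in
theorem mem_bl {n : INat N} {x y : α} : y ∈ bl D n x ↔ D (n, (x, y)) := by
  have hI := h.int
  exact mem_sep (by (repeat' (first | with_reducible exact IntF.id | with_reducible exact IntF.fst' | with_reducible exact IntF.snd' | with_reducible exact IntF.const _ | with_reducible exact Int.const _ | assumption | with_reducible apply Int.and | with_reducible apply Int.or | with_reducible apply Int.not | with_reducible apply Int.imp | with_reducible apply Int.iff | with_reducible apply Int.ne | with_reducible apply Int.eq | with_reducible apply Int.mem | with_reducible apply Int.subset | with_reducible apply Int.ltN | with_reducible apply Int.leN | with_reducible_and_instances apply Int.le | with_reducible_and_instances apply Int.lt | with_reducible apply Int.all | with_reducible apply Int.ex | with_reducible apply IntF.fst | with_reducible apply IntF.snd | with_reducible apply IntF.app | with_reducible apply IntF.inl | with_reducible apply IntF.inr | with_reducible_and_instances apply IntF.mul | with_reducible_and_instances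 apply IntF.inv | with_reducible_and_instances apply IntF.add | with_reducible_and_instances apply IntF.sub | with_reducible_and_instances apply IntF.neg | with_reducible_and_instances apply IntF.smul | with_reducible apply Int.fin | with_reducible apply IntF.sep | with_reducible apply IntF.lam | with_reducible apply IntF.insert | with_reducible apply IntF.singleton | with_reducible apply IntF.union | with_reducible apply IntF.iimage | with_reducible apply IntF.ite | with_reducible apply IntF.the | with_reducible apply IntF.irec | with_reducible apply IntF.succ | with_reducible apply IntF.val | with_reducible apply IntF.mk | (with_reducible refine Int.comp ?_ ?_; assumption) | (with_reducible refine Int.comp₂ ?_ ?_ ?_; assumption) | (with_reducible refine Int.comp₃ ?_ ?_ ?_ ?_; assumption) | (with_reducible refine Int.comp₄ ?_ ?_ ?_ ?_ ?_; assumption) | (with_reducible refine IntF.comp ?_ ?_; assumption) | (with_reducible refine IntF.comp₂ ?_ ?_ ?_; assumption) | (with_reducible refine IntF.comp₃ ?_ ?_ ?_ ?_; assumption) | with_reducible apply IntF.pair)))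

include h in
theorem bl_eq {n : INat N} {x y : α} (hxy : D (n, (x, y))) : bl D n x = bl D n y :=
  IPow.ext' fun z => by
    rw [mem_bl h, mem_bl h]
    exact ⟨fun h1 => h.trans _ _ _ _ (h.symm _ _ _ hxy) h1, fun h1 => h.trans _ _ _ _ hxy h1⟩

include h in
theorem int_bl : IntF N (fun q : INat N × α => bl D q.1 q.2) := by
  have hI := h.int
  unfold bl
  (repeat' (first | with_reducible exact IntF.id | with_reducible exact IntF.fst' | with_reducible exact IntF.snd' | with_reducible exact IntF.const _ | with_reducible exact Int.const _ | assumption | with_reducible apply Int.and | with_reducible apply Int.or | with_reducible apply Int.not | with_reducible apply Int.imp | with_reducible apply Int.iff | with_reducible apply Int.ne | with_reducible apply Int.eq | with_reducible apply Int.mem | with_reducible apply Int.subset | with_reducible apply Int.ltN | with_reducible apply Int.leN | with_reducible_and_instances apply Int.le | with_reducible_and_instances apply Int.lt | with_reducible apply Int.all | with_reducible apply Int.ex | with_reducible apply IntF.fst | with_reducible apply IntF.snd | with_reducible apply IntF.app | with_reducible apply IntF.inl | with_reducible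 apply IntF.inr | with_reducible_and_instances apply IntF.mul | with_reducible_and_instances apply IntF.inv | with_reducible_and_instances apply IntF.add | with_reducible_and_instances apply IntF.sub | with_reducible_and_instances apply IntF.neg | with_reducible_and_instances apply IntF.smul | with_reducible apply Int.fin | with_reducible apply IntF.sep | with_reducible apply IntF.lam | with_reducible apply IntF.insert | with_reducible apply IntF.singleton | with_reducible apply IntF.union | with_reducible apply IntF.iimage | with_reducible apply IntF.ite | with_reducible apply IntF.the | with_reducible apply IntF.irec | with_reducible apply IntF.succ | with_reducible apply IntF.val | with_reducible apply IntF.mk | (with_reducible refine Int.comp ?_ ?_; assumption) | (with_reducible refine Int.comp₂ ?_ ?_ ?_; assumption) | (with_reducible refine Int.comp₃ ?_ ?_ ?_ ?_; assumption) | (with_reducible refine Int.comp₄ ?_ ?_ ?_ ?_ ?_; assumption) | (with_reducible refine IntF.comp ?_ ?_; assumption) | (with_reducible refine IntF.comp₂ ?_ ?_ ?_; assumption) | (with_reducible refine IntF.comp₃ ?_ ?_ ?_ ?_; assumption) | with_reducible apply IntF.pair))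

/-- The open sets. -/
def OC (D : INat N × (α × α) → Prop) (U : IPow N α) : Prop :=
  ∀ x, x ∈ U → ∃ n, ∀ y, D (n, (x, y)) → y ∈ U

include h in
theorem tpO_OC : TpO (OC D) := by
  have hI := h.int
  refine tpO_of (Nb := fun x U => ∃ n, ∀ y, D (n, (x, y)) → y ∈ U) (by (repeat' (first | with_reducible exact IntF.id | with_reducible exact IntF.fst' | with_reducible exact IntF.snd' | with_reducible exact IntF.const _ | with_reducible exact Int.const _ | assumption | with_reducible apply Int.and | with_reducible apply Int.or | with_reducible apply Int.not | with_reducible apply Int.imp | with_reducible apply Int.iff | with_reducible apply Int.ne | with_reducible apply Int.eq | with_reducible apply Int.mem | with_reducible apply Int.subset | with_reducible apply Int.ltN | with_reducible apply Int.leN | with_reducible_and_instances apply Int.le | with_reducible_and_instances apply Int.lt | with_reducible apply Int.all | with_reducible apply Int.ex | with_reducible apply IntF.fst | with_reducible apply IntF.snd | with_reducible apply IntF.app | with_reducible apply IntF.inl | with_reducible apply IntF.inr | with_reducible_and_instances apply IntF.mul | with_reducible_and_instances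 apply IntF.inv | with_reducible_and_instances apply IntF.add | with_reducible_and_instances apply IntF.sub | with_reducible_and_instances apply IntF.neg | with_reducible_and_instances apply IntF.smul | with_reducible apply Int.fin | with_reducible apply IntF.sep | with_reducible apply IntF.lam | with_reducible apply IntF.insert | with_reducible apply IntF.singleton | with_reducible apply IntF.union | with_reducible apply IntF.iimage | with_reducible apply IntF.ite | with_reducible apply IntF.the | with_reducible apply IntF.irec | with_reducible apply IntF.succ | with_reducible apply IntF.val | with_reducible apply IntF.mk | (with_reducible refine Int.comp ?_ ?_; assumption) | (with_reducible refine Int.comp₂ ?_ ?_ ?_; assumption) | (with_reducible refine Int.comp₃ ?_ ?_ ?_ ?_; assumption) | (with_reducible refine Int.comp₄ ?_ ?_ ?_ ?_ ?_; assumption) | (with_reducible refine IntF.comp ?_ ?_; assumption) | (with_reducible refine IntF.comp₂ ?_ ?_ ?_; assumption) | (with_reducible refine IntF.comp₃ ?_ ?_ ?_ ?_; assumption) | with_reducible apply IntF.pair))) ?_ ?_ ?_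
  · rintro a U V ⟨n, hn⟩ h1
    exact ⟨n, fun y hy => h1 y (hn y hy)⟩
  · rintro a U V W ⟨n, hn⟩ ⟨m, hm⟩ h1
    exact ⟨max n m, fun y hy => (h1 y).2 ⟨hn y (h.le (le_max_left _ _) hy),
      hm y (h.le (le_max_right _ _) hy)⟩⟩
  · intro a U h1
    exact ⟨0, fun y _ => h1 y⟩

include h in
theorem open_bl (n : INat N) (x : α) : OC D (bl D n x) := by
  intro y hy
  rw [mem_bl h] at hy
  exact ⟨n, fun z hz => (mem_bl h).2 (h.trans _ _ _ _ hy hz)⟩

include h in
/-- Finite sets are discrete. -/
theorem exists_far {Y : IPow N α} (hY : IFin Y) (x : α) :
    ∃ n, ∀ y, y ∈ Y → y ≠ x → ¬ D (n, (x, y)) := by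
  have hI := h.int
  obtain ⟨n, hn⟩ := IFin.exists_bound (r := fun (e : α) (n : INat N) => e ≠ x → ¬ D (n, (x, e)))
    (by (repeat' (first | with_reducible exact IntF.id | with_reducible exact IntF.fst' | with_reducible exact IntF.snd' | with_reducible exact IntF.const _ | with_reducible exact Int.const _ | assumption | with_reducible apply Int.and | with_reducible apply Int.or | with_reducible apply Int.not | with_reducible apply Int.imp | with_reducible apply Int.iff | with_reducible apply Int.ne | with_reducible apply Int.eq | with_reducible apply Int.mem | with_reducible apply Int.subset | with_reducible apply Int.ltN | with_reducible apply Int.leN | with_reducible_and_instances apply Int.le | with_reducible_and_instances apply Int.lt | with_reducible apply Int.all | with_reducible apply Int.ex | with_reducible apply IntF.fst | with_reducible apply IntF.snd | with_reducible apply IntF.app | with_reducible apply IntF.inl | with_reducible apply IntF.inr | with_reducible_and_instances apply IntF.mul | with_reducible_and_instances apply IntF.inv | with_reducible_and_instances apply IntF.add | with_reducible_and_instances apply IntF.sub | with_reducible_and_instances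 apply IntF.neg | with_reducible_and_instances apply IntF.smul | with_reducible apply Int.fin | with_reducible apply IntF.sep | with_reducible apply IntF.lam | with_reducible apply IntF.insert | with_reducible apply IntF.singleton | with_reducible apply IntF.union | with_reducible apply IntF.iimage | with_reducible apply IntF.ite | with_reducible apply IntF.the | with_reducible apply IntF.irec | with_reducible apply IntF.succ | with_reducible apply IntF.val | with_reducible apply IntF.mk | (with_reducible refine Int.comp ?_ ?_; assumption) | (with_reducible refine Int.comp₂ ?_ ?_ ?_; assumption) | (with_reducible refine Int.comp₃ ?_ ?_ ?_ ?_; assumption) | (with_reducible refine Int.comp₄ ?_ ?_ ?_ ?_ ?_; assumption) | (with_reducible refine IntF.comp ?_ ?_; assumption) | (with_reducible refine IntF.comp₂ ?_ ?_ ?_; assumption) | (with_reducible refine IntF.comp₃ ?_ ?_ ?_ ?_; assumption) | with_reducible apply IntF.pair)))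
    (fun b c => ⟨max b c, fun a h1 h3 h2 => h1.elim (fun h4 => h4 h3 (h.le (le_max_left _ _) h2))
      (fun h4 => h4 h3 (h.le (le_max_right _ _) h2))⟩) ⟨0⟩ hY fun a ha => by
        by_contra hc
        push Not at hc
        obtain ⟨h1, -⟩ := hc 0
        exact h1 (h.sep _ _ fun n => (hc n).2).symm
  exact ⟨n, fun y h1 h2 => hn y h1 h2⟩

include h in
theorem bl_inf (n : INat N) (x : α) {Y : IPow N α} (hY : IFin Y) : ∃ y, D (n, (x, y)) ∧ ¬ y ∈ Y := by
  obtain ⟨m, hm⟩ := exists_far h hY x
  obtain ⟨y, h1, h2⟩ := h.split (max m n) x
  refine ⟨y, h.le (le_max_right _ _) h1, fun h3 => hm y h3 ?_ (h.le (le_max_left _ _) h1)⟩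
  rintro rfl
  exact h2 (h.refl _ _)

/-- The base. -/
def BC (D : INat N × (α × α) → Prop) (U : IPow N α) : Prop := ∃ n x, U = bl D n x

include h in
theorem int_BC : Int N (BC D) := by
  have hI := int_bl h
  unfold BC
  (repeat' (first | with_reducible exact IntF.id | with_reducible exact IntF.fst' | with_reducible exact IntF.snd' | with_reducible exact IntF.const _ | with_reducible exact Int.const _ | assumption | with_reducible apply Int.and | with_reducible apply Int.or | with_reducible apply Int.not | with_reducible apply Int.imp | with_reducible apply Int.iff | with_reducible apply Int.ne | with_reducible apply Int.eq | with_reducible apply Int.mem | with_reducible apply Int.subset | with_reducible apply Int.ltN | with_reducible apply Int.leN | with_reducible_and_instances apply Int.le | with_reducible_and_instances apply Int.lt | with_reducible apply Int.all | with_reducible apply Int.ex | with_reducible apply IntF.fst | with_reducible apply IntF.snd | with_reducible apply IntF.app | with_reducible apply IntF.inl | with_reducible apply IntF.inr | with_reducible_and_instances apply IntF.mul | with_reducible_and_instances apply IntF.inv | with_reducible_and_instances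 apply IntF.add | with_reducible_and_instances apply IntF.sub | with_reducible_and_instances apply IntF.neg | with_reducible_and_instances apply IntF.smul | with_reducible apply Int.fin | with_reducible apply IntF.sep | with_reducible apply IntF.lam | with_reducible apply IntF.insert | with_reducible apply IntF.singleton | with_reducible apply IntF.union | with_reducible apply IntF.iimage | with_reducible apply IntF.ite | with_reducible apply IntF.the | with_reducible apply IntF.irec | with_reducible apply IntF.succ | with_reducible apply IntF.val | with_reducible apply IntF.mk | (with_reducible refine Int.comp ?_ ?_; assumption) | (with_reducible refine Int.comp₂ ?_ ?_ ?_; assumption) | (with_reducible refine Int.comp₃ ?_ ?_ ?_ ?_; assumption) | (with_reducible refine Int.comp₄ ?_ ?_ ?_ ?_ ?_; assumption) | (with_reducible refine IntF.comp ?_ ?_; assumption) | (with_reducible refine IntF.comp₂ ?_ ?_ ?_; assumption) | (with_reducible refine IntF.comp₃ ?_ ?_ ?_ ?_; assumption) | with_reducible apply IntF.pair))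

include h in
theorem isBase_BC : IsBase (code (sep N (BC D))) (tp (OC D) (tpO_OC h).int) := by
  have hB := int_BC h
  refine ⟨fun u hu => ?_, fun u z hu hz => ?_⟩
  · obtain ⟨U, hU, rfl⟩ := mem_cp.1 hu
    obtain ⟨n, x, rfl⟩ := (mem_sep hB).1 hU
    exact mem_tp'.2 (open_bl h n x)
  · obtain ⟨U, hU, rfl⟩ := mem_tp.1 hu
    obtain ⟨x, hx, rfl⟩ := mem_cp.1 hz
    obtain ⟨n, hn⟩ := hU x hx
    refine ⟨code (bl D n x), mem_cp.2 ⟨_, (mem_sep hB).2 ⟨n, x, rfl⟩, rfl⟩,
      mem_cp.2 ⟨x, (mem_bl h).2 (h.refl _ _), rfl⟩, fun y hy => ?_⟩
    obtain ⟨b, hb, rfl⟩ := mem_cp.1 hy
    exact mem_cp.2 ⟨b, hn b ((mem_bl h).1 hb), rfl⟩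

/-- The balls of a given size. -/
noncomputable def bs (D : INat N × (α × α) → Prop) (n : INat N) : IPow N (IPow N α) :=
  sep N fun U => ∃ x, U = bl D n x

include h in
theorem mem_bs {n : INat N} {U : IPow N α} : U ∈ bs D n ↔ ∃ x, U = bl D n x := by
  have hI := int_bl h
  exact mem_sep (by (repeat' (first | with_reducible exact IntF.id | with_reducible exact IntF.fst' | with_reducible exact IntF.snd' | with_reducible exact IntF.const _ | with_reducible exact Int.const _ | assumption | with_reducible apply Int.and | with_reducible apply Int.or | with_reducible apply Int.not | with_reducible apply Int.imp | with_reducible apply Int.iff | with_reducible apply Int.ne | with_reducible apply Int.eq | with_reducible apply Int.mem | with_reducible apply Int.subset | with_reducible apply Int.ltN | with_reducible apply Int.leN | with_reducible_and_instances apply Int.le | with_reducible_and_instances apply Int.lt | with_reducible apply Int.all | with_reducible apply Int.ex | with_reducible apply IntF.fst | with_reducible apply IntF.snd | with_reducible apply IntF.app | with_reducible apply IntF.inl | with_reducible apply IntF.inr | with_reducible_and_instances apply IntF.mul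 | with_reducible_and_instances apply IntF.inv | with_reducible_and_instances apply IntF.add | with_reducible_and_instances apply IntF.sub | with_reducible_and_instances apply IntF.neg | with_reducible_and_instances apply IntF.smul | with_reducible apply Int.fin | with_reducible apply IntF.sep | with_reducible apply IntF.lam | with_reducible apply IntF.insert | with_reducible apply IntF.singleton | with_reducible apply IntF.union | with_reducible apply IntF.iimage | with_reducible apply IntF.ite | with_reducible apply IntF.the | with_reducible apply IntF.irec | with_reducible apply IntF.succ | with_reducible apply IntF.val | with_reducible apply IntF.mk | (with_reducible refine Int.comp ?_ ?_; assumption) | (with_reducible refine Int.comp₂ ?_ ?_ ?_; assumption) | (with_reducible refine Int.comp₃ ?_ ?_ ?_ ?_; assumption) | (with_reducible refine Int.comp₄ ?_ ?_ ?_ ?_ ?_; assumption) | (with_reducible refine IntF.comp ?_ ?_; assumption) | (with_reducible refine IntF.comp₂ ?_ ?_ ?_; assumption) | (with_reducible refine IntF.comp₃ ?_ ?_ ?_ ?_; assumption) | with_reducible apply IntF.pair)))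

include h in
theorem int_bs : IntF N (fun n : INat N => bs D n) := by
  have hI := int_bl h
  unfold bs
  (repeat' (first | with_reducible exact IntF.id | with_reducible exact IntF.fst' | with_reducible exact IntF.snd' | with_reducible exact IntF.const _ | with_reducible exact Int.const _ | assumption | with_reducible apply Int.and | with_reducible apply Int.or | with_reducible apply Int.not | with_reducible apply Int.imp | with_reducible apply Int.iff | with_reducible apply Int.ne | with_reducible apply Int.eq | with_reducible apply Int.mem | with_reducible apply Int.subset | with_reducible apply Int.ltN | with_reducible apply Int.leN | with_reducible_and_instances apply Int.le | with_reducible_and_instances apply Int.lt | with_reducible apply Int.all | with_reducible apply Int.ex | with_reducible apply IntF.fst | with_reducible apply IntF.snd | with_reducible apply IntF.app | with_reducible apply IntF.inl | with_reducible apply IntF.inr | with_reducible_and_instances apply IntF.mul | with_reducible_and_instances apply IntF.inv | with_reducible_and_instances apply IntF.add | with_reducible_and_instances apply IntF.sub | with_reducible_and_instances apply IntF.neg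 | with_reducible_and_instances apply IntF.smul | with_reducible apply Int.fin | with_reducible apply IntF.sep | with_reducible apply IntF.lam | with_reducible apply IntF.insert | with_reducible apply IntF.singleton | with_reducible apply IntF.union | with_reducible apply IntF.iimage | with_reducible apply IntF.ite | with_reducible apply IntF.the | with_reducible apply IntF.irec | with_reducible apply IntF.succ | with_reducible apply IntF.val | with_reducible apply IntF.mk | (with_reducible refine Int.comp ?_ ?_; assumption) | (with_reducible refine Int.comp₂ ?_ ?_ ?_; assumption) | (with_reducible refine Int.comp₃ ?_ ?_ ?_ ?_; assumption) | (with_reducible refine Int.comp₄ ?_ ?_ ?_ ?_ ?_; assumption) | (with_reducible refine IntF.comp ?_ ?_; assumption) | (with_reducible refine IntF.comp₂ ?_ ?_ ?_; assumption) | (with_reducible refine IntF.comp₃ ?_ ?_ ?_ ?_; assumption) | with_reducible apply IntF.pair))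

include h in
theorem fin_bs (n : INat N) : IFin (bs D n) := by
  have hI := int_bl h
  obtain ⟨F, hF, h1⟩ := h.net n
  have hf : IntF N (fun x : α => bl D n x) := by (repeat' (first | with_reducible exact IntF.id | with_reducible exact IntF.fst' | with_reducible exact IntF.snd' | with_reducible exact IntF.const _ | with_reducible exact Int.const _ | assumption | with_reducible apply Int.and | with_reducible apply Int.or | with_reducible apply Int.not | with_reducible apply Int.imp | with_reducible apply Int.iff | with_reducible apply Int.ne | with_reducible apply Int.eq | with_reducible apply Int.mem | with_reducible apply Int.subset | with_reducible apply Int.ltN | with_reducible apply Int.leN | with_reducible_and_instances apply Int.le | with_reducible_and_instances apply Int.lt | with_reducible apply Int.all | with_reducible apply Int.ex | with_reducible apply IntF.fst | with_reducible apply IntF.snd | with_reducible apply IntF.app | with_reducible apply IntF.inl | with_reducible apply IntF.inr | with_reducible_and_instances apply IntF.mul | with_reducible_and_instances apply IntF.inv | with_reducible_and_instances apply IntF.add | with_reducible_and_instances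 apply IntF.sub | with_reducible_and_instances apply IntF.neg | with_reducible_and_instances apply IntF.smul | with_reducible apply Int.fin | with_reducible apply IntF.sep | with_reducible apply IntF.lam | with_reducible apply IntF.insert | with_reducible apply IntF.singleton | with_reducible apply IntF.union | with_reducible apply IntF.iimage | with_reducible apply IntF.ite | with_reducible apply IntF.the | with_reducible apply IntF.irec | with_reducible apply IntF.succ | with_reducible apply IntF.val | with_reducible apply IntF.mk | (with_reducible refine Int.comp ?_ ?_; assumption) | (with_reducible refine Int.comp₂ ?_ ?_ ?_; assumption) | (with_reducible refine Int.comp₃ ?_ ?_ ?_ ?_; assumption) | (with_reducible refine Int.comp₄ ?_ ?_ ?_ ?_ ?_; assumption) | (with_reducible refine IntF.comp ?_ ?_; assumption) | (with_reducible refine IntF.comp₂ ?_ ?_ ?_; assumption) | (with_reducible refine IntF.comp₃ ?_ ?_ ?_ ?_; assumption) | with_reducible apply IntF.pair))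
  refine (hF.image hf).subset fun U hU => ?_
  obtain ⟨x, rfl⟩ := (mem_bs h).1 hU
  obtain ⟨y, hy, h2⟩ := h1 x
  exact (mem_iimage hf).2 ⟨y, hy, bl_eq h h2⟩

include h in
theorem isCuf_BC : IsCuf (code (M := N) (sep N (BC D))) := by
  have hB := int_BC h
  have hs := int_bs h
  obtain ⟨w, hw⟩ := exists_omega (N := N)
  have hI : Int N (fun q : INat N × IPow N (IPow N α) => q.2 = bs D q.1) := by (repeat' (first | with_reducible exact IntF.id | with_reducible exact IntF.fst' | with_reducible exact IntF.snd' | with_reducible exact IntF.const _ | with_reducible exact Int.const _ | assumption | with_reducible apply Int.and | with_reducible apply Int.or | with_reducible apply Int.not | with_reducible apply Int.imp | with_reducible apply Int.iff | with_reducible apply Int.ne | with_reducible apply Int.eq | with_reducible apply Int.mem | with_reducible apply Int.subset | with_reducible apply Int.ltN | with_reducible apply Int.leN | with_reducible_and_instances apply Int.le | with_reducible_and_instances apply Int.lt | with_reducible apply Int.all | with_reducible apply Int.ex | with_reducible apply IntF.fst | with_reducible apply IntF.snd | with_reducible apply IntF.app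 | with_reducible apply IntF.inl | with_reducible apply IntF.inr | with_reducible_and_instances apply IntF.mul | with_reducible_and_instances apply IntF.inv | with_reducible_and_instances apply IntF.add | with_reducible_and_instances apply IntF.sub | with_reducible_and_instances apply IntF.neg | with_reducible_and_instances apply IntF.smul | with_reducible apply Int.fin | with_reducible apply IntF.sep | with_reducible apply IntF.lam | with_reducible apply IntF.insert | with_reducible apply IntF.singleton | with_reducible apply IntF.union | with_reducible apply IntF.iimage | with_reducible apply IntF.ite | with_reducible apply IntF.the | with_reducible apply IntF.irec | with_reducible apply IntF.succ | with_reducible apply IntF.val | with_reducible apply IntF.mk | (with_reducible refine Int.comp ?_ ?_; assumption) | (with_reducible refine Int.comp₂ ?_ ?_ ?_; assumption) | (with_reducible refine Int.comp₃ ?_ ?_ ?_ ?_; assumption) | (with_reducible refine Int.comp₄ ?_ ?_ ?_ ?_ ?_; assumption) | (with_reducible refine IntF.comp ?_ ?_; assumption) | (with_reducible refine IntF.comp₂ ?_ ?_ ?_; assumption) | (with_reducible refine IntF.comp₃ ?_ ?_ ?_ ?_; assumption) | with_reducible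 apply IntF.pair))
  have hS : Int N (fun q : IPow N (IPow N α) => ∃ n : INat N, q = bs D n) := by (repeat' (first | with_reducible exact IntF.id | with_reducible exact IntF.fst' | with_reducible exact IntF.snd' | with_reducible exact IntF.const _ | with_reducible exact Int.const _ | assumption | with_reducible apply Int.and | with_reducible apply Int.or | with_reducible apply Int.not | with_reducible apply Int.imp | with_reducible apply Int.iff | with_reducible apply Int.ne | with_reducible apply Int.eq | with_reducible apply Int.mem | with_reducible apply Int.subset | with_reducible apply Int.ltN | with_reducible apply Int.leN | with_reducible_and_instances apply Int.le | with_reducible_and_instances apply Int.lt | with_reducible apply Int.all | with_reducible apply Int.ex | with_reducible apply IntF.fst | with_reducible apply IntF.snd | with_reducible apply IntF.app | with_reducible apply IntF.inl | with_reducible apply IntF.inr | with_reducible_and_instances apply IntF.mul | with_reducible_and_instances apply IntF.inv | with_reducible_and_instances apply IntF.add | with_reducible_and_instances apply IntF.sub | with_reducible_and_instances apply IntF.neg | with_reducible_and_instances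 apply IntF.smul | with_reducible apply Int.fin | with_reducible apply IntF.sep | with_reducible apply IntF.lam | with_reducible apply IntF.insert | with_reducible apply IntF.singleton | with_reducible apply IntF.union | with_reducible apply IntF.iimage | with_reducible apply IntF.ite | with_reducible apply IntF.the | with_reducible apply IntF.irec | with_reducible apply IntF.succ | with_reducible apply IntF.val | with_reducible apply IntF.mk | (with_reducible refine Int.comp ?_ ?_; assumption) | (with_reducible refine Int.comp₂ ?_ ?_ ?_; assumption) | (with_reducible refine Int.comp₃ ?_ ?_ ?_ ?_; assumption) | (with_reducible refine Int.comp₄ ?_ ?_ ?_ ?_ ?_; assumption) | (with_reducible refine IntF.comp ?_ ?_; assumption) | (with_reducible refine IntF.comp₂ ?_ ?_ ?_; assumption) | (with_reducible refine IntF.comp₃ ?_ ?_ ?_ ?_; assumption) | with_reducible apply IntF.pair))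
  have hf : ∀ z y, App hI.small.elt z y ↔ ∃ n : INat N, code (M := N) n = z ∧ code (M := N) (bs D n) = y := by
    intro z y
    rw [appN, hI.small.mem]
    constructor
    · rintro ⟨⟨n, S⟩, h5, h7⟩
      obtain ⟨h8, h9⟩ := op_inj h7
      replace h5 : S = bs D n := h5
      exact ⟨n, h8, by rw [← h5]; exact h9⟩
    · rintro ⟨n, rfl, rfl⟩
      exact ⟨(n, bs D n), rfl, rfl⟩
  refine ⟨w, code (M := N) (sep N fun q : IPow N (IPow N α) => ∃ n : INat N, q = bs D n), hI.small.elt, hw,
    ⟨fun q hq => ?_, fun z hz => ?_⟩, fun u hu => ?_, fun z => ⟨fun hz => ?_, ?_⟩⟩
  · obtain ⟨⟨n, S⟩, h5, rfl⟩ := hI.small.mem.1 hq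
    exact ⟨code (M := N) n, code (M := N) S, (hw _).2 (nat_iff.2 ⟨n, rfl⟩), mem_cp.2 ⟨S, (mem_sep hS).2 ⟨n, h5⟩, rfl⟩,
      plainN_ordPair.2 rfl⟩
  · obtain ⟨n, rfl⟩ := nat_iff.1 ((hw z).1 hz)
    refine ⟨code (M := N) (bs D n), (hf _ _).2 ⟨n, rfl, rfl⟩, fun y hy => ?_⟩
    obtain ⟨m, h1, rfl⟩ := (hf _ _).1 hy
    obtain rfl : m = n := ITy.inj (M := N) h1
    rfl
  · obtain ⟨S, hS', rfl⟩ := mem_cp.1 hu
    obtain ⟨n, rfl⟩ := (mem_sep hS).1 hS'
    exact finite_of_finP (p := fun U : IPow N α => U ∈ bs D n) (by (repeat' (first | with_reducible exact IntF.id | with_reducible exact IntF.fst' | with_reducible exact IntF.snd' | with_reducible exact IntF.const _ | with_reducible exact Int.const _ | assumption | with_reducible apply Int.and | with_reducible apply Int.or | with_reducible apply Int.not | with_reducible apply Int.imp | with_reducible apply Int.iff | with_reducible apply Int.ne | with_reducible apply Int.eq | with_reducible apply Int.mem | with_reducible apply Int.subset | with_reducible apply Int.ltN | with_reducible apply Int.leN | with_reducible_and_instances apply Int.le | with_reducible_and_instances apply Int.lt | with_reducible apply Int.all | with_reducible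 apply Int.ex | with_reducible apply IntF.fst | with_reducible apply IntF.snd | with_reducible apply IntF.app | with_reducible apply IntF.inl | with_reducible apply IntF.inr | with_reducible_and_instances apply IntF.mul | with_reducible_and_instances apply IntF.inv | with_reducible_and_instances apply IntF.add | with_reducible_and_instances apply IntF.sub | with_reducible_and_instances apply IntF.neg | with_reducible_and_instances apply IntF.smul | with_reducible apply Int.fin | with_reducible apply IntF.sep | with_reducible apply IntF.lam | with_reducible apply IntF.insert | with_reducible apply IntF.singleton | with_reducible apply IntF.union | with_reducible apply IntF.iimage | with_reducible apply IntF.ite | with_reducible apply IntF.the | with_reducible apply IntF.irec | with_reducible apply IntF.succ | with_reducible apply IntF.val | with_reducible apply IntF.mk | (with_reducible refine Int.comp ?_ ?_; assumption) | (with_reducible refine Int.comp₂ ?_ ?_ ?_; assumption) | (with_reducible refine Int.comp₃ ?_ ?_ ?_ ?_; assumption) | (with_reducible refine Int.comp₄ ?_ ?_ ?_ ?_ ?_; assumption) | (with_reducible refine IntF.comp ?_ ?_; assumption) | (with_reducible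 refine IntF.comp₂ ?_ ?_ ?_; assumption) | (with_reducible refine IntF.comp₃ ?_ ?_ ?_ ?_; assumption) | with_reducible apply IntF.pair))) (fun z => mem_cp)
      ((finP_iff (by (repeat' (first | with_reducible exact IntF.id | with_reducible exact IntF.fst' | with_reducible exact IntF.snd' | with_reducible exact IntF.const _ | with_reducible exact Int.const _ | assumption | with_reducible apply Int.and | with_reducible apply Int.or | with_reducible apply Int.not | with_reducible apply Int.imp | with_reducible apply Int.iff | with_reducible apply Int.ne | with_reducible apply Int.eq | with_reducible apply Int.mem | with_reducible apply Int.subset | with_reducible apply Int.ltN | with_reducible apply Int.leN | with_reducible_and_instances apply Int.le | with_reducible_and_instances apply Int.lt | with_reducible apply Int.all | with_reducible apply Int.ex | with_reducible apply IntF.fst | with_reducible apply IntF.snd | with_reducible apply IntF.app | with_reducible apply IntF.inl | with_reducible apply IntF.inr | with_reducible_and_instances apply IntF.mul | with_reducible_and_instances apply IntF.inv | with_reducible_and_instances apply IntF.add | with_reducible_and_instances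 apply IntF.sub | with_reducible_and_instances apply IntF.neg | with_reducible_and_instances apply IntF.smul | with_reducible apply Int.fin | with_reducible apply IntF.sep | with_reducible apply IntF.lam | with_reducible apply IntF.insert | with_reducible apply IntF.singleton | with_reducible apply IntF.union | with_reducible apply IntF.iimage | with_reducible apply IntF.ite | with_reducible apply IntF.the | with_reducible apply IntF.irec | with_reducible apply IntF.succ | with_reducible apply IntF.val | with_reducible apply IntF.mk | (with_reducible refine Int.comp ?_ ?_; assumption) | (with_reducible refine Int.comp₂ ?_ ?_ ?_; assumption) | (with_reducible refine Int.comp₃ ?_ ?_ ?_ ?_; assumption) | (with_reducible refine Int.comp₄ ?_ ?_ ?_ ?_ ?_; assumption) | (with_reducible refine IntF.comp ?_ ?_; assumption) | (with_reducible refine IntF.comp₂ ?_ ?_ ?_; assumption) | (with_reducible refine IntF.comp₃ ?_ ?_ ?_ ?_; assumption) | with_reducible apply IntF.pair)))).2 ((fin_bs h n).subset fun U hU => (mem_sep (by (repeat' (first | with_reducible exact IntF.id | with_reducible exact IntF.fst' | with_reducible exact IntF.snd' | with_reducible exact IntF.const _ |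 with_reducible exact Int.const _ | assumption | with_reducible apply Int.and | with_reducible apply Int.or | with_reducible apply Int.not | with_reducible apply Int.imp | with_reducible apply Int.iff | with_reducible apply Int.ne | with_reducible apply Int.eq | with_reducible apply Int.mem | with_reducible apply Int.subset | with_reducible apply Int.ltN | with_reducible apply Int.leN | with_reducible_and_instances apply Int.le | with_reducible_and_instances apply Int.lt | with_reducible apply Int.all | with_reducible apply Int.ex | with_reducible apply IntF.fst | with_reducible apply IntF.snd | with_reducible apply IntF.app | with_reducible apply IntF.inl | with_reducible apply IntF.inr | with_reducible_and_instances apply IntF.mul | with_reducible_and_instances apply IntF.inv | with_reducible_and_instances apply IntF.add | with_reducible_and_instances apply IntF.sub | with_reducible_and_instances apply IntF.neg | with_reducible_and_instances apply IntF.smul | with_reducible apply Int.fin | with_reducible apply IntF.sep | with_reducible apply IntF.lam | with_reducible apply IntF.insert | with_reducible apply IntF.singleton | with_reducible apply IntF.union | with_reducible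 apply IntF.iimage | with_reducible apply IntF.ite | with_reducible apply IntF.the | with_reducible apply IntF.irec | with_reducible apply IntF.succ | with_reducible apply IntF.val | with_reducible apply IntF.mk | (with_reducible refine Int.comp ?_ ?_; assumption) | (with_reducible refine Int.comp₂ ?_ ?_ ?_; assumption) | (with_reducible refine Int.comp₃ ?_ ?_ ?_ ?_; assumption) | (with_reducible refine Int.comp₄ ?_ ?_ ?_ ?_ ?_; assumption) | (with_reducible refine IntF.comp ?_ ?_; assumption) | (with_reducible refine IntF.comp₂ ?_ ?_ ?_; assumption) | (with_reducible refine IntF.comp₃ ?_ ?_ ?_ ?_; assumption) | with_reducible apply IntF.pair)))).1 hU))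
  · obtain ⟨U, hU, rfl⟩ := mem_cp.1 hz
    obtain ⟨n, x, rfl⟩ := (mem_sep hB).1 hU
    exact ⟨code (M := N) n, code (M := N) (bs D n), (hf _ _).2 ⟨n, rfl, rfl⟩,
      mem_cp.2 ⟨_, (mem_bs h).2 ⟨x, rfl⟩, rfl⟩⟩
  · rintro ⟨n', u, h1, h2⟩
    obtain ⟨n, rfl, rfl⟩ := (hf _ _).1 h1
    obtain ⟨U, hU, rfl⟩ := mem_cp.1 h2
    obtain ⟨x, rfl⟩ := (mem_bs h).1 hU
    exact mem_cp.2 ⟨_, (mem_sep hB).2 ⟨n, x, rfl⟩, rfl⟩

include h in
theorem isCompact_OC : IsCompact (tp (OC D) (tpO_OC h).int) (dom N α) := by
  have hI := h.int
  intro c hc hcov
  have hI' : Int N (fun U : IPow N α => Mem (code U) c) := ⟨c, fun U => Iff.rfl⟩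
  obtain ⟨C', hC', hsub, hcov'⟩ := h.compact (C := sep N fun U => Mem (code U) c) (by
      intro U hU x hx
      exact mem_tp'.1 (hc _ ((mem_sep hI').1 hU)) x hx) (by
      intro x
      obtain ⟨u, hu, hx⟩ := hcov (code x) (mem_domP.2 ⟨x, rfl⟩)
      obtain ⟨U, -, rfl⟩ := mem_tp.1 (hc u hu)
      exact ⟨U, (mem_sep hI').2 hu, mem_cp'.1 hx⟩)
  refine ⟨code C', finite_of_finP (p := fun U => U ∈ C') (by (repeat' (first | with_reducible exact IntF.id | with_reducible exact IntF.fst' | with_reducible exact IntF.snd' | with_reducible exact IntF.const _ | with_reducible exact Int.const _ | assumption | with_reducible apply Int.and | with_reducible apply Int.or | with_reducible apply Int.not | with_reducible apply Int.imp | with_reducible apply Int.iff | with_reducible apply Int.ne | with_reducible apply Int.eq | with_reducible apply Int.mem | with_reducible apply Int.subset | with_reducible apply Int.ltN | with_reducible apply Int.leN | with_reducible_and_instances apply Int.le | with_reducible_and_instances apply Int.lt | with_reducible apply Int.all | with_reducible apply Int.ex | with_reducible apply IntF.fst | with_reducible apply IntF.snd | with_reducible apply IntF.app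 | with_reducible apply IntF.inl | with_reducible apply IntF.inr | with_reducible_and_instances apply IntF.mul | with_reducible_and_instances apply IntF.inv | with_reducible_and_instances apply IntF.add | with_reducible_and_instances apply IntF.sub | with_reducible_and_instances apply IntF.neg | with_reducible_and_instances apply IntF.smul | with_reducible apply Int.fin | with_reducible apply IntF.sep | with_reducible apply IntF.lam | with_reducible apply IntF.insert | with_reducible apply IntF.singleton | with_reducible apply IntF.union | with_reducible apply IntF.iimage | with_reducible apply IntF.ite | with_reducible apply IntF.the | with_reducible apply IntF.irec | with_reducible apply IntF.succ | with_reducible apply IntF.val | with_reducible apply IntF.mk | (with_reducible refine Int.comp ?_ ?_; assumption) | (with_reducible refine Int.comp₂ ?_ ?_ ?_; assumption) | (with_reducible refine Int.comp₃ ?_ ?_ ?_ ?_; assumption) | (with_reducible refine Int.comp₄ ?_ ?_ ?_ ?_ ?_; assumption) | (with_reducible refine IntF.comp ?_ ?_; assumption) | (with_reducible refine IntF.comp₂ ?_ ?_ ?_; assumption) | (with_reducible refine IntF.comp₃ ?_ ?_ ?_ ?_; assumption) | with_reducible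 apply IntF.pair)))
    (fun z => mem_cp) ((finP_iff (by (repeat' (first | with_reducible exact IntF.id | with_reducible exact IntF.fst' | with_reducible exact IntF.snd' | with_reducible exact IntF.const _ | with_reducible exact Int.const _ | assumption | with_reducible apply Int.and | with_reducible apply Int.or | with_reducible apply Int.not | with_reducible apply Int.imp | with_reducible apply Int.iff | with_reducible apply Int.ne | with_reducible apply Int.eq | with_reducible apply Int.mem | with_reducible apply Int.subset | with_reducible apply Int.ltN | with_reducible apply Int.leN | with_reducible_and_instances apply Int.le | with_reducible_and_instances apply Int.lt | with_reducible apply Int.all | with_reducible apply Int.ex | with_reducible apply IntF.fst | with_reducible apply IntF.snd | with_reducible apply IntF.app | with_reducible apply IntF.inl | with_reducible apply IntF.inr | with_reducible_and_instances apply IntF.mul | with_reducible_and_instances apply IntF.inv | with_reducible_and_instances apply IntF.add | with_reducible_and_instances apply IntF.sub | with_reducible_and_instances apply IntF.neg | with_reducible_and_instances apply IntF.smul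 | with_reducible apply Int.fin | with_reducible apply IntF.sep | with_reducible apply IntF.lam | with_reducible apply IntF.insert | with_reducible apply IntF.singleton | with_reducible apply IntF.union | with_reducible apply IntF.iimage | with_reducible apply IntF.ite | with_reducible apply IntF.the | with_reducible apply IntF.irec | with_reducible apply IntF.succ | with_reducible apply IntF.val | with_reducible apply IntF.mk | (with_reducible refine Int.comp ?_ ?_; assumption) | (with_reducible refine Int.comp₂ ?_ ?_ ?_; assumption) | (with_reducible refine Int.comp₃ ?_ ?_ ?_ ?_; assumption) | (with_reducible refine Int.comp₄ ?_ ?_ ?_ ?_ ?_; assumption) | (with_reducible refine IntF.comp ?_ ?_; assumption) | (with_reducible refine IntF.comp₂ ?_ ?_ ?_; assumption) | (with_reducible refine IntF.comp₃ ?_ ?_ ?_ ?_; assumption) | with_reducible apply IntF.pair)))).2 ?_), fun u hu => ?_, fun z hz => ?_⟩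
  · refine hC'.subset fun U hU => ?_
    exact (mem_sep (by (repeat' (first | with_reducible exact IntF.id | with_reducible exact IntF.fst' | with_reducible exact IntF.snd' | with_reducible exact IntF.const _ | with_reducible exact Int.const _ | assumption | with_reducible apply Int.and | with_reducible apply Int.or | with_reducible apply Int.not | with_reducible apply Int.imp | with_reducible apply Int.iff | with_reducible apply Int.ne | with_reducible apply Int.eq | with_reducible apply Int.mem | with_reducible apply Int.subset | with_reducible apply Int.ltN | with_reducible apply Int.leN | with_reducible_and_instances apply Int.le | with_reducible_and_instances apply Int.lt | with_reducible apply Int.all | with_reducible apply Int.ex | with_reducible apply IntF.fst | with_reducible apply IntF.snd | with_reducible apply IntF.app | with_reducible apply IntF.inl | with_reducible apply IntF.inr | with_reducible_and_instances apply IntF.mul | with_reducible_and_instances apply IntF.inv | with_reducible_and_instances apply IntF.add | with_reducible_and_instances apply IntF.sub | with_reducible_and_instances apply IntF.neg | with_reducible_and_instances apply IntF.smul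 | with_reducible apply Int.fin | with_reducible apply IntF.sep | with_reducible apply IntF.lam | with_reducible apply IntF.insert | with_reducible apply IntF.singleton | with_reducible apply IntF.union | with_reducible apply IntF.iimage | with_reducible apply IntF.ite | with_reducible apply IntF.the | with_reducible apply IntF.irec | with_reducible apply IntF.succ | with_reducible apply IntF.val | with_reducible apply IntF.mk | (with_reducible refine Int.comp ?_ ?_; assumption) | (with_reducible refine Int.comp₂ ?_ ?_ ?_; assumption) | (with_reducible refine Int.comp₃ ?_ ?_ ?_ ?_; assumption) | (with_reducible refine Int.comp₄ ?_ ?_ ?_ ?_ ?_; assumption) | (with_reducible refine IntF.comp ?_ ?_; assumption) | (with_reducible refine IntF.comp₂ ?_ ?_ ?_; assumption) | (with_reducible refine IntF.comp₃ ?_ ?_ ?_ ?_; assumption) | with_reducible apply IntF.pair)))).1 hU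
  · obtain ⟨U, hU, rfl⟩ := mem_cp.1 hu
    exact (mem_sep hI').1 (hsub U hU)
  · obtain ⟨x, rfl⟩ := mem_domP.1 hz
    obtain ⟨U, hU, hxU⟩ := hcov' x
    exact ⟨code U, mem_cp.2 ⟨U, hU, rfl⟩, mem_cp.2 ⟨_, hxU, rfl⟩⟩

include h in
theorem isHausdorff_OC : IsHausdorff (tp (OC D) (tpO_OC h).int) (dom N α) := by
  intro y z hy hz hyz
  obtain ⟨a, rfl⟩ := mem_domP.1 hy
  obtain ⟨b, rfl⟩ := mem_domP.1 hz
  have h1 : ∃ n, ¬ D (n, (a, b)) := by
    by_contra hc
    push Not at hc
    exact hyz (by rw [h.sep _ _ hc])
  obtain ⟨n, hn⟩ := h1
  refine ⟨code (bl D n a), code (bl D n b), mem_tp'.2 (open_bl h n a), mem_tp'.2 (open_bl h n b),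
    mem_cp'.2 ((mem_bl h).2 (h.refl _ _)), mem_cp'.2 ((mem_bl h).2 (h.refl _ _)),
    fun w hw hw' => ?_⟩
  obtain ⟨c, hc, rfl⟩ := mem_cp.1 hw
  exact hn (h.trans _ _ _ _ ((mem_bl h).1 hc) (h.symm _ _ _ ((mem_bl h).1 (mem_cp'.1 hw'))))

include h in
theorem isClosed_bl (n : INat N) (x : α) :
    IsClosed (tp (OC D) (tpO_OC h).int) (dom N α) (code (bl D n x)) := by
  have hI := h.int
  have hI' : Int N (fun y : α => ¬ D (n, (x, y))) := by (repeat' (first | with_reducible exact IntF.id | with_reducible exact IntF.fst' | with_reducible exact IntF.snd' | with_reducible exact IntF.const _ | with_reducible exact Int.const _ | assumption | with_reducible apply Int.and | with_reducible apply Int.or | with_reducible apply Int.not | with_reducible apply Int.imp | with_reducible apply Int.iff | with_reducible apply Int.ne | with_reducible apply Int.eq | with_reducible apply Int.mem | with_reducible apply Int.subset | with_reducible apply Int.ltN | with_reducible apply Int.leN | with_reducible_and_instances apply Int.le | with_reducible_and_instances apply Int.lt | with_reducible apply Int.all | with_reducible apply Int.ex | with_reducible apply IntF.fst | with_reducible apply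 IntF.snd | with_reducible apply IntF.app | with_reducible apply IntF.inl | with_reducible apply IntF.inr | with_reducible_and_instances apply IntF.mul | with_reducible_and_instances apply IntF.inv | with_reducible_and_instances apply IntF.add | with_reducible_and_instances apply IntF.sub | with_reducible_and_instances apply IntF.neg | with_reducible_and_instances apply IntF.smul | with_reducible apply Int.fin | with_reducible apply IntF.sep | with_reducible apply IntF.lam | with_reducible apply IntF.insert | with_reducible apply IntF.singleton | with_reducible apply IntF.union | with_reducible apply IntF.iimage | with_reducible apply IntF.ite | with_reducible apply IntF.the | with_reducible apply IntF.irec | with_reducible apply IntF.succ | with_reducible apply IntF.val | with_reducible apply IntF.mk | (with_reducible refine Int.comp ?_ ?_; assumption) | (with_reducible refine Int.comp₂ ?_ ?_ ?_; assumption) | (with_reducible refine Int.comp₃ ?_ ?_ ?_ ?_; assumption) | (with_reducible refine Int.comp₄ ?_ ?_ ?_ ?_ ?_; assumption) | (with_reducible refine IntF.comp ?_ ?_; assumption) | (with_reducible refine IntF.comp₂ ?_ ?_ ?_; assumption) | (with_reducible refine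 IntF.comp₃ ?_ ?_ ?_ ?_; assumption) | with_reducible apply IntF.pair))
  refine ⟨fun z hz => ?_, code (sep N fun y : α => ¬ D (n, (x, y))), mem_tp'.2 fun y hy => ?_,
    fun z => ?_⟩
  · obtain ⟨y, -, rfl⟩ := mem_cp.1 hz
    exact mem_domP.2 ⟨y, rfl⟩
  · refine ⟨n, fun w hw => (mem_sep hI').2 fun h1 => (mem_sep hI').1 hy ?_⟩
    exact h.trans _ _ _ _ h1 (h.symm _ _ _ hw)
  · constructor
    · intro hz
      obtain ⟨y, hy, rfl⟩ := mem_cp.1 hz
      exact ⟨mem_domP.2 ⟨y, rfl⟩, fun h1 => (mem_sep hI').1 hy ((mem_bl h).1 (mem_cp'.1 h1))⟩
    · rintro ⟨hz, h1⟩
      obtain ⟨y, rfl⟩ := mem_domP.1 hz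
      exact mem_cp'.2 ((mem_sep hI').2 fun h2 => h1 (mem_cp'.2 ((mem_bl h).2 h2)))

theorem ifin_of_finiteα {F : N} (h : IsFinite F) :
    IFin (sep N fun i : α => Helper672.Plain.Mem (code i) F) := by
  obtain ⟨n, f, hn, ⟨h1, h2⟩, -⟩ := h
  let n' : INat N := ⟨n, fun i hi => hn i (ind_iffN.1 hi)⟩
  have hp : Int N (fun i : α => Helper672.Plain.Mem (code i) F) := ⟨F, fun i => Iff.rfl⟩
  have hr : Int N (fun q : α × INat N => Mem (op (code q.1) (code q.2)) f) :=
    ⟨f, fun q => Iff.rfl⟩
  have hf : IntF N (fun x : α => the (fun k : INat N => Mem (op (code x) (code k)) f) 0) :=
    IntF.the hr (IntF.const _)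
  have h3 : ∀ x : α, Helper672.Plain.Mem (code x) F → ∃ k : INat N, k < n' ∧ App f (code x) (code k) ∧
      the (fun k : INat N => Mem (op (code x) (code k)) f) 0 = k := by
    intro x hx
    obtain ⟨y, hy, hu⟩ := h1.2 (code x) hx
    obtain ⟨q, h4, h5⟩ := hy
    obtain ⟨x', y', h8, h9, h10⟩ := h1.1 q h5
    obtain ⟨-, rfl⟩ := op_inj ((plainN_ordPair.1 h4).symm.trans (plainN_ordPair.1 h10))
    obtain ⟨k, h11, rfl⟩ := mem_nat (n := n') h9
    have h12 : App f (code x) (code k) := ⟨q, h4, h5⟩
    refine ⟨k, h11, h12, the_eq ⟨k, appN.1 h12, fun k' hk' => ?_⟩ (appN.1 h12)⟩
    exact ITy.inj (hu _ (appN.2 hk'))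
  refine (finP_iff hp).1 (FinP.of_inj hp hf (fun x y hx hy hxy => ?_) (finP_lt n') fun x hx => ?_)
  · obtain ⟨k, -, h4, h5⟩ := h3 x hx
    obtain ⟨k', -, h4', h5'⟩ := h3 y hy
    rw [h5, h5'] at hxy
    rw [← hxy] at h4'
    exact ITy.inj (M := N) (h2 _ _ _ h4 h4')
  · obtain ⟨k, h4, -, h5⟩ := h3 x hx
    rw [h5]
    exact h4

include h in
theorem not_wl : ¬ IsWeaklyLoeb (tp (OC D) (tpO_OC h).int) (dom N α) := by
  rintro ⟨k, s, f, hk, ⟨hf1, hf2⟩, hf3⟩
  have hI := h.int
  have hb := int_bl h
  have hr : Int N (fun q : IPow N α × IPow N α => Mem (op (code q.1) (code q.2)) f) :=
    ⟨f, fun q => Iff.rfl⟩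
  obtain ⟨F, hF, hF'⟩ : ∃ F : IPow N α × IPow N α → Prop, Int N F ∧
      ∀ U V, F (U, V) ↔ Mem (op (code U) (code V)) f := ⟨_, hr, fun _ _ => Iff.rfl⟩
  have hF2 : Int N (fun q : IPow N α × IPow N α => F (q.1, q.2)) := hF
  obtain ⟨E, hE, hhom⟩ := h.hom (fun q => ∃ Y : IPow N α, q.1 ∈ Y ∧ F (bl D q.2 q.1, Y)) (by (repeat' (first | with_reducible exact IntF.id | with_reducible exact IntF.fst' | with_reducible exact IntF.snd' | with_reducible exact IntF.const _ | with_reducible exact Int.const _ | assumption | with_reducible apply Int.and | with_reducible apply Int.or | with_reducible apply Int.not | with_reducible apply Int.imp | with_reducible apply Int.iff | with_reducible apply Int.ne | with_reducible apply Int.eq | with_reducible apply Int.mem | with_reducible apply Int.subset | with_reducible apply Int.ltN | with_reducible apply Int.leN | with_reducible_and_instances apply Int.le | with_reducible_and_instances apply Int.lt | with_reducible apply Int.all | with_reducible apply Int.ex | with_reducible apply IntF.fst | with_reducible apply IntF.snd | with_reducible apply IntF.app | with_reducible apply IntF.inl | with_reducible apply IntF.inr | with_reducible_and_instances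 apply IntF.mul | with_reducible_and_instances apply IntF.inv | with_reducible_and_instances apply IntF.add | with_reducible_and_instances apply IntF.sub | with_reducible_and_instances apply IntF.neg | with_reducible_and_instances apply IntF.smul | with_reducible apply Int.fin | with_reducible apply IntF.sep | with_reducible apply IntF.lam | with_reducible apply IntF.insert | with_reducible apply IntF.singleton | with_reducible apply IntF.union | with_reducible apply IntF.iimage | with_reducible apply IntF.ite | with_reducible apply IntF.the | with_reducible apply IntF.irec | with_reducible apply IntF.succ | with_reducible apply IntF.val | with_reducible apply IntF.mk | (with_reducible refine Int.comp ?_ ?_; assumption) | (with_reducible refine Int.comp₂ ?_ ?_ ?_; assumption) | (with_reducible refine Int.comp₃ ?_ ?_ ?_ ?_; assumption) | (with_reducible refine Int.comp₄ ?_ ?_ ?_ ?_ ?_; assumption) | (with_reducible refine IntF.comp ?_ ?_; assumption) | (with_reducible refine IntF.comp₂ ?_ ?_ ?_; assumption) | (with_reducible refine IntF.comp₃ ?_ ?_ ?_ ?_; assumption) | with_reducible apply IntF.pair)))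
  obtain ⟨a⟩ := h.ne
  obtain ⟨x, -, hx⟩ := bl_inf h 0 a hE
  obtain ⟨n, hn⟩ := exists_far h hE x
  have hn' : ∀ e, e ∈ E → ¬ D (n, (x, e)) := fun e he => hn e he fun h1 => hx (h1 ▸ he)
  obtain ⟨y, ⟨q, hq, hqf⟩, -⟩ := hf2 (code (bl D n x)) ((hk _).2 ⟨isClosed_bl h n x, code x,
    mem_cp'.2 ((mem_bl h).2 (h.refl _ _))⟩)
  obtain ⟨h1, ⟨z, hz⟩, h3⟩ := hf3 _ y ⟨q, hq, hqf⟩
  obtain ⟨Y, rfl, hY⟩ := exists_codeα (N := N) (α := α) (u := y) fun z hz => by
    obtain ⟨b, -, rfl⟩ := mem_cp.1 (h3 z hz)
    exact mem_domP.2 ⟨b, rfl⟩
  have hYf : IFin Y := by
    refine (ifin_of_finiteα (α := α) h1).subset fun U hU => ?_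
    exact (mem_sep ⟨code Y, fun i => Iff.rfl⟩).2 (mem_cp'.2 hU)
  obtain ⟨b, hb', rfl⟩ := mem_cp.1 hz
  have hxb : D (n, (x, b)) := (mem_bl h).1 (mem_cp'.1 (h3 _ hz))
  obtain ⟨c, hc, hcY⟩ := bl_inf h n x hYf
  have hW := hhom n b c (fun e he h5 => hn' e he (h.trans _ _ _ _ hxb h5))
    (h.trans _ _ _ _ (h.symm _ _ _ hxb) hc) n ⟨Y, hb', (hF' _ _).2 (by
      rw [← bl_eq h hxb]
      exact appN.1 ⟨q, hq, hqf⟩)⟩
  obtain ⟨Y', h6, h7⟩ := hW
  replace h7 := (hF' _ _).1 h7
  rw [← bl_eq h hc] at h7
  obtain ⟨y, -, hu⟩ := hf2 (code (bl D n x)) ((hk _).2 ⟨isClosed_bl h n x, code x,
    mem_cp'.2 ((mem_bl h).2 (h.refl _ _))⟩)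
  have h8 := hu _ (appN.2 h7)
  have h9 := hu _ (⟨q, hq, hqf⟩ : App f (code (bl D n x)) (code Y))
  obtain rfl : Y' = Y := ITy.inj (M := N) (h8.trans h9.symm)
  exact hcY h6

end

theorem pd8a1a0 (h : ∃ (M : Type u) (_ : LSet.Structure M), ZF M) :
    ∃ (N : Type u) (_ : LSet.Structure N), ZF N ∧ ∃ x t b : N, IsTopology t x ∧ IsCompact t x ∧
      IsHausdorff t x ∧ IsBase b t ∧ IsCuf b ∧ ¬ IsWeaklyLoeb t x := by
  obtain ⟨M, i, hM⟩ := h
  obtain ⟨M₀, h1, h2⟩ := exists_countable_sub M hM
  letI := toL M₀
  haveI : IsModel M₀ := isModel_of_zermelo h2.toZermelo
  have hC : CollL M₀ := coll_of_zf h2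
  have p₀ : Co M₀ (IPow M₀ (INat M₀)) := ⟨∅, fun i k d d' h => absurd h (by simp), IFin.empty⟩
  obtain ⟨G, hG⟩ := H635.exists_gen (M := M₀) p₀
  refine ⟨NN (SS (IZ' M₀)) hG, inferInstance, nn_zf hG hC, ?_⟩
  obtain ⟨D, hD⟩ := exists_canT hG hC
  exact ⟨_, _, _, isTopology_tp (tpO_OC hD), isCompact_OC hD, isHausdorff_OC hD, isBase_BC hD,
    isCuf_BC hD, not_wl hD⟩

end Pool.Agent.Q301.CT
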